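import Pool.Agent.H61.IrD

set_option autoImplicit false

namespace Pool.Agent.Results.MP_f48be4_an.NoAbel

open Set Filter Topology Complex Metric

/-- `g (r ξ) → L` as `r → 1`, `r < 1` -/
def RadLim (g : ℂ → ℂ) (ξ L : ℂ) : Prop :=
  Tendsto (fun r : ℝ => g (r * ξ)) (𝓝[<] 1) (𝓝 L)

/-- analytic self-map of the unit disc with unimodular radial limits almost everywhere -/
def IsInner (f : ℂ → ℂ) : Prop :=
  DifferentiableOn ℂ f (ball 0 1) ∧ MapsTo f (ball 0 1) (ball 0 1) ∧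
    ∀ᵐ θ : ℝ, ∃ L : ℂ, ‖L‖ = 1 ∧ RadLim f (exp (θ * I)) L

def IsRotation (f : ℂ → ℂ) : Prop :=
  ∃ c : ℂ, ‖c‖ = 1 ∧ ∀ z ∈ ball (0 : ℂ) 1, f z = c * z

theorem result : ∃ (f : ℂ → ℂ) (a : ℕ → ℂ) (F : ℂ → ℂ) (ξ : ℂ) (L : ℕ → ℂ) (S : ℂ),
    IsInner f ∧ f 0 = 0 ∧ ¬ IsRotation f ∧
    TendstoLocallyUniformlyOn (fun N z => ∑ n ∈ Finset.range N, a n * f^[n + 1] z) F atTop
      (ball 0 1) ∧
    DifferentiableOn ℂ F (ball 0 1) ∧
    ‖ξ‖ = 1 ∧ (∀ n : ℕ, ‖L n‖ = 1 ∧ RadLim f^[n + 1] ξ (L n)) ∧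
    Tendsto (fun N => ∑ n ∈ Finset.range N, a n * L n) atTop (𝓝 S) ∧
    ¬ ∃ l : ℂ, RadLim F ξ l := by
  obtain ⟨s, hs, hbad⟩ := Pool.Agent.H61.IrD.exists_bad
  obtain ⟨M, hM⟩ := hs.norm.bddAbove_range
  have hM' : ∀ n, ‖s n‖ ≤ M := fun n => hM ⟨n, rfl⟩
  have ha : ∀ n, ‖s n - Pool.Agent.H61.IrD.sh s n‖ ≤ M + M := by
    intro n
    refine (norm_sub_le _ _).trans (add_le_add (hM' n) ?_)
    cases n with
    | zero => simpa [Pool.Agent.H61.IrD.sh] using (norm_nonneg _).trans (hM' 0)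
    | succ n => exact hM' n
  have hlu := Pool.Agent.H61.IrC.loc_unif ha
  refine ⟨Pool.Agent.H61.IrC.f, fun n => s n - Pool.Agent.H61.IrD.sh s n, _, -1, fun _ => 1, 0,
    ⟨Pool.Agent.H61.IrC.f_diff, Pool.Agent.H61.IrC.f_maps, Pool.Agent.H61.IrC.f_inner⟩,
    Pool.Agent.H61.IrC.f_zero, Pool.Agent.H61.IrC.not_rot, hlu, ?_, by simp,
    fun n => ⟨by simp, Pool.Agent.H61.IrC.radial n⟩, ?_, hbad⟩
  · refine hlu.differentiableOn (Eventually.of_forall fun N => ?_) isOpen_ball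
    exact DifferentiableOn.fun_sum fun n _ =>
      (Pool.Agent.H61.IrC.iter_diff (n + 1)).const_mul _
  · simp only [mul_one, Pool.Agent.H61.IrD.tele]
    exact (tendsto_add_atTop_iff_nat 1).1 hs

end Pool.Agent.Results.MP_f48be4_an.NoAbel
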